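import Mathlib

/-!
# Lefschetz modules with the Hodge index property and the product with a projective line
-/

set_option autoImplicit false

namespace Pool.Agent.X268.TR

universe u

/-- A graded module with a Lefschetz operator and a form with the Hodge index property. -/
structure IsLM {M : Type u} [AddCommGroup M] [Module ℚ M] (n : ℕ) (gr : ℕ → Submodule ℚ M)
    (L : Module.End ℚ M) (B : M →ₗ[ℚ] M →ₗ[ℚ] ℚ) : Prop where
  map : ∀ j, ∀ x ∈ gr j, L x ∈ gr (j + 1)
  bound : ∀ j, n < j → ∀ x ∈ gr j, x = 0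
  symm : ∀ x y, B x y = B y x
  adj : ∀ x y, B (L x) y = B x (L y)
  lef : ∀ j m, 2 * j + m = n → ∀ z ∈ gr (j + m), ∃ z' ∈ gr j, (L ^ m) z' = z
  hodge : ∀ j m, 2 * j + m = n → ∀ x ∈ gr j, (L ^ (m + 1)) x = 0 → x ≠ 0 →
    0 < (-1) ^ j * B x ((L ^ m) x)

variable {M : Type u} [AddCommGroup M] [Module ℚ M] {n : ℕ} {gr : ℕ → Submodule ℚ M}
  {L : Module.End ℚ M} {B : M →ₗ[ℚ] M →ₗ[ℚ] ℚ}

theorem IsLM.pow_mem (h : IsLM n gr L B) (k : ℕ) {j : ℕ} {x : M} (hx : x ∈ gr j) :
    (L ^ k) x ∈ gr (j + k) := by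
  induction k with
  | zero => simpa using hx
  | succ k ih =>
    rw [pow_succ', Module.End.mul_apply]
    exact h.map _ _ ih

theorem IsLM.adj_pow (h : IsLM n gr L B) (k : ℕ) (x y : M) : B ((L ^ k) x) y = B x ((L ^ k) y) := by
  induction k generalizing y with
  | zero => simp
  | succ k ih =>
    rw [pow_succ', Module.End.mul_apply, h.adj, ih, ← Module.End.mul_apply, ← pow_succ]
    rw [← pow_succ']

theorem IsLM.injective (h : IsLM n gr L B) {j m : ℕ} (hj : 2 * j + m = n) {x : M} (hx : x ∈ gr j)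
    (h0 : (L ^ m) x = 0) : x = 0 := by
  by_contra hne
  have h1 := h.hodge j m hj x hx (by rw [pow_succ', Module.End.mul_apply, h0, map_zero]) hne
  rw [h0, map_zero, mul_zero] at h1
  exact lt_irrefl _ h1

/-- The decomposition of an element killed by `L ^ (m + 1)` where `n + 1 = 2 j + m`. -/
theorem IsLM.decomp (h : IsLM n gr L B) {j m : ℕ} (hj : 2 * j + m = n + 1) {a : M}
    (ha : a ∈ gr j) (h0 : (L ^ (m + 1)) a = 0) :
    ∃ p q, a = p + L q ∧ p ∈ gr j ∧ (L ^ m) p = 0 ∧
      ((j = 0 ∧ q = 0) ∨ ∃ i, j = i + 1 ∧ q ∈ gr i ∧ (L ^ (m + 2)) q = 0) := by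
  rcases Nat.eq_zero_or_pos j with rfl | hpos
  · refine ⟨a, 0, by simp, ha, ?_, Or.inl ⟨rfl, rfl⟩⟩
    exact h.bound (0 + m) (by omega) _ (h.pow_mem m ha)
  · obtain ⟨i, rfl⟩ : ∃ i, j = i + 1 := ⟨j - 1, by omega⟩
    obtain ⟨q, hq, he⟩ := h.lef i (m + 1) (by omega) ((L ^ m) a) (by
      have := h.pow_mem m ha
      rwa [show i + 1 + m = i + (m + 1) by omega] at this)
    refine ⟨a - L q, q, by abel, Submodule.sub_mem _ ha (h.map _ _ hq), ?_,
      Or.inr ⟨i, rfl, hq, ?_⟩⟩
    · rw [map_sub, ← he, pow_succ, Module.End.mul_apply, sub_self]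
    · rw [show m + 2 = 1 + (m + 1) by omega, pow_add, Module.End.mul_apply, he, pow_one,
        ← Module.End.mul_apply, ← pow_succ', h0]

section prod

/-- The Lefschetz operator of the product with a projective line. -/
def prodL (c : ℚ) (L : Module.End ℚ M) : Module.End ℚ (M × M) :=
  LinearMap.prod (L ∘ₗ LinearMap.fst ℚ M M) (L ∘ₗ LinearMap.snd ℚ M M + c • LinearMap.fst ℚ M M)

/-- The form of the product with a projective line. -/
def prodB (B : M →ₗ[ℚ] M →ₗ[ℚ] ℚ) : (M × M) →ₗ[ℚ] (M × M) →ₗ[ℚ] ℚ :=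
  B.compl₁₂ (LinearMap.fst ℚ M M) (LinearMap.snd ℚ M M) +
    B.compl₁₂ (LinearMap.snd ℚ M M) (LinearMap.fst ℚ M M)

/-- The grading of the product with a projective line. -/
def prodG (gr : ℕ → Submodule ℚ M) : ℕ → Submodule ℚ (M × M)
  | 0 => (gr 0).prod ⊥
  | (j + 1) => (gr (j + 1)).prod (gr j)

theorem prodL_apply (c : ℚ) (x : M × M) : prodL c L x = (L x.1, L x.2 + c • x.1) := rfl

theorem prodB_apply (x y : M × M) : prodB B x y = B x.1 y.2 + B x.2 y.1 := rfl

theorem prodL_pow (c : ℚ) (k : ℕ) (x : M × M) : (prodL c L ^ (k + 1)) x =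
    ((L ^ (k + 1)) x.1, (L ^ (k + 1)) x.2 + (((k : ℚ) + 1) * c) • (L ^ k) x.1) := by
  induction k with
  | zero => simp [prodL_apply]
  | succ k ih =>
    rw [pow_succ', Module.End.mul_apply, ih, prodL_apply]
    refine Prod.ext ?_ ?_
    · change L ((L ^ (k + 1)) x.1) = (L ^ (k + 1 + 1)) x.1
      rw [pow_succ' L (k + 1), Module.End.mul_apply]
    · change L ((L ^ (k + 1)) x.2 + (((k : ℚ) + 1) * c) • (L ^ k) x.1) + c • (L ^ (k + 1)) x.1 =
        (L ^ (k + 1 + 1)) x.2 + ((((k + 1 : ℕ) : ℚ) + 1) * c) • (L ^ (k + 1)) x.1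
      rw [map_add, map_smul, pow_succ' L (k + 1), Module.End.mul_apply, add_assoc,
        ← Module.End.mul_apply L (L ^ k), ← pow_succ', ← add_smul]
      congr 2
      push_cast
      ring

theorem mem_prodG_fst {j : ℕ} {x : M × M} (hx : x ∈ prodG gr j) : x.1 ∈ gr j := by
  cases j with
  | zero => exact hx.1
  | succ j => exact hx.1

/-- **The product with a projective line.** -/
theorem IsLM.prod (h : IsLM n gr L B) {c : ℚ} (hc : 0 < c) :
    IsLM (n + 1) (prodG gr) (prodL c L) (prodB B) where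
  map := by
    intro j x hx
    rw [prodL_apply]
    cases j with
    | zero =>
      have h1 : x.2 = 0 := hx.2
      refine ⟨h.map _ _ hx.1, ?_⟩
      change L x.2 + c • x.1 ∈ gr 0
      rw [h1, map_zero, zero_add]
      exact Submodule.smul_mem _ _ hx.1
    | succ j =>
      exact ⟨h.map _ _ hx.1, Submodule.add_mem _ (h.map _ _ hx.2) (Submodule.smul_mem _ _ hx.1)⟩
  bound := by
    intro j hj x hx
    cases j with
    | zero => omega
    | succ j =>
      exact Prod.ext (h.bound _ (by omega) _ hx.1) (h.bound _ (by omega) _ hx.2)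
  symm := by
    intro x y
    rw [prodB_apply, prodB_apply, h.symm x.1, h.symm x.2, add_comm]
  adj := by
    intro x y
    rw [prodB_apply, prodB_apply, prodL_apply, prodL_apply]
    change B (L x.1) y.2 + B (L x.2 + c • x.1) y.1 = B x.1 (L y.2 + c • y.1) + B x.2 (L y.1)
    rw [map_add, map_add, LinearMap.add_apply, map_smul, map_smul, LinearMap.smul_apply, h.adj,
      h.adj]
    abel
  lef := by
    intro j m hj z hz
    rcases m with _ | m
    · exact ⟨z, hz, by simp⟩
    have hc' : ((m : ℚ) + 1) * c ≠ 0 := (mul_pos (by positivity) hc).ne'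
    have hz1 : z.1 ∈ gr (j + m + 1) := hz.1
    have hz2 : z.2 ∈ gr (j + m) := hz.2
    have hd : ∃ d, ((j = 0 ∧ d = 0) ∨ ∃ i, j = i + 1 ∧ d ∈ gr i) ∧
        (L ^ (m + 2)) d = L z.2 - (((m : ℚ) + 1) * c) • z.1 := by
      rcases Nat.eq_zero_or_pos j with rfl | hpos
      · refine ⟨0, Or.inl ⟨rfl, rfl⟩, ?_⟩
        rw [map_zero, h.bound _ (by omega) _ (h.map _ _ hz2), h.bound _ (by omega) _ hz1,
          smul_zero, sub_zero]
      · obtain ⟨i, rfl⟩ : ∃ i, j = i + 1 := ⟨j - 1, by omega⟩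
        obtain ⟨d, hd, he⟩ := h.lef i (m + 2) (by omega) (L z.2 - (((m : ℚ) + 1) * c) • z.1) (by
          rw [show i + (m + 2) = i + 1 + m + 1 by omega]
          exact Submodule.sub_mem _ (h.map _ _ hz2) (Submodule.smul_mem _ _ hz1))
        exact ⟨d, Or.inr ⟨i, rfl, hd⟩, he⟩
    obtain ⟨d, hd, he⟩ := hd
    have hd' : (L ^ (m + 1)) d ∈ gr (j + m) := by
      rcases hd with ⟨rfl, rfl⟩ | ⟨i, rfl, hd⟩
      · rw [map_zero]
        exact Submodule.zero_mem _
      · have := h.pow_mem (m + 1) hd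
        rwa [show i + (m + 1) = i + 1 + m by omega] at this
    obtain ⟨a, ha, hae⟩ := h.lef j m (by omega)
      ((((m : ℚ) + 1) * c)⁻¹ • (z.2 - (L ^ (m + 1)) d))
      (Submodule.smul_mem _ _ (Submodule.sub_mem _ hz2 hd'))
    refine ⟨(a, d), ?_, ?_⟩
    · rcases hd with ⟨rfl, rfl⟩ | ⟨i, rfl, hd⟩
      · exact ⟨ha, rfl⟩
      · exact ⟨ha, hd⟩
    · rw [prodL_pow]
      refine Prod.ext ?_ ?_
      · change (L ^ (m + 1)) a = z.1
        rw [pow_succ', Module.End.mul_apply, hae, map_smul, map_sub, ← Module.End.mul_apply,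
          ← pow_succ', he, sub_sub_cancel, smul_smul, inv_mul_cancel₀ hc', one_smul]
      · change (L ^ (m + 1)) d + (((m : ℚ) + 1) * c) • (L ^ m) a = z.2
        rw [hae, smul_smul, mul_inv_cancel₀ hc', one_smul]
        abel
  hodge := by
    intro j m hj x hx h0 hne
    rw [prodL_pow] at h0
    have h01 : (L ^ (m + 1)) x.1 = 0 := congrArg Prod.fst h0
    have h02 : (L ^ (m + 1)) x.2 + (((m : ℚ) + 1) * c) • (L ^ m) x.1 = 0 := congrArg Prod.snd h0
    obtain ⟨p, q, ha, hp, hp0, hq⟩ := h.decomp hj (mem_prodG_fst hx) h01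
    have hLa : (L ^ m) x.1 = (L ^ (m + 1)) q := by
      rw [ha, map_add, hp0, zero_add, pow_succ, Module.End.mul_apply]
    have hx2 : x.2 = -((((m : ℚ) + 1) * c) • q) := by
      rw [hLa, ← map_smul, ← map_add] at h02
      rcases hq with ⟨rfl, rfl⟩ | ⟨i, rfl, hq, hq0⟩
      · have h1 : x.2 = 0 := hx.2
        rw [h1, smul_zero, neg_zero]
      · have h1 : x.2 + (((m : ℚ) + 1) * c) • q = 0 :=
          h.injective (by omega) (Submodule.add_mem _ hx.2 (Submodule.smul_mem _ _ hq)) h02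
        exact eq_neg_of_add_eq_zero_left h1
    have hform : prodB B x ((prodL c L ^ m) x) =
        ((m : ℚ) * c) * B p ((L ^ (m - 1)) p) - (((m : ℚ) + 2) * c) * B q ((L ^ (m + 1)) q) := by
      rcases m with _ | m
      · have hp0' : p = 0 := by simpa using hp0
        have ha' : x.1 = L q := by rw [ha, hp0', zero_add]
        rw [prodB_apply, pow_zero, Module.End.one_apply, hx2, ha', map_neg, map_neg,
          LinearMap.neg_apply, map_smul, map_smul, LinearMap.smul_apply, h.adj, pow_one]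
        simp only [Nat.cast_zero, zero_mul, zero_add, one_mul, smul_eq_mul, zero_sub]
        ring
      · have e1 : B p ((L ^ (m + 1)) q) = 0 := by
          rw [← h.adj_pow, hp0, map_zero, LinearMap.zero_apply]
        have e2 : B x.1 ((L ^ m) x.1) = B p ((L ^ m) p) + B q ((L ^ (m + 2)) q) := by
          have h1 : (L ^ m) x.1 = (L ^ m) p + (L ^ (m + 1)) q := by
            rw [ha, map_add, pow_succ L m, Module.End.mul_apply]
          rw [h1, ha, map_add B, LinearMap.add_apply, map_add (B p), map_add (B (L q)), e1, add_zero]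
          congr 1
          have h2 : B (L q) ((L ^ m) p) = 0 := by
            rw [h.adj, ← Module.End.mul_apply, ← pow_succ', h.symm, h.adj_pow, e1]
          rw [h2, zero_add, h.adj, ← Module.End.mul_apply, ← pow_succ']
        have e3 : B x.1 ((L ^ (m + 1)) x.2) = B x.2 ((L ^ (m + 1)) x.1) := by
          rw [← h.adj_pow, h.symm]
        rw [prodB_apply, prodL_pow]
        change B x.1 ((L ^ (m + 1)) x.2 + (((m : ℚ) + 1) * c) • (L ^ m) x.1) +
          B x.2 ((L ^ (m + 1)) x.1) = _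
        rw [map_add, map_smul, e3, e2, hLa, hx2, map_neg, LinearMap.neg_apply, map_smul,
          LinearMap.smul_apply]
        simp only [smul_eq_mul, Nat.add_sub_cancel]
        push_cast
        ring
    rw [hform]
    have hpq : p ≠ 0 ∨ q ≠ 0 := by
      by_contra hcon
      push Not at hcon
      refine hne (Prod.ext ?_ ?_)
      · rw [ha, hcon.1, hcon.2, map_zero, add_zero]
        rfl
      · rw [hx2, hcon.2, smul_zero, neg_zero]
        rfl
    have hqpos : 0 ≤ (-1) ^ j * (-B q ((L ^ (m + 1)) q)) ∧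
        (q ≠ 0 → 0 < (-1) ^ j * (-B q ((L ^ (m + 1)) q))) := by
      rcases hq with ⟨rfl, rfl⟩ | ⟨i, rfl, hq, hq0⟩
      · refine ⟨by simp, fun h => absurd rfl h⟩
      · have h1 : q ≠ 0 → 0 < (-1 : ℚ) ^ (i + 1) * (-B q ((L ^ (m + 1)) q)) := by
          intro hq1
          have h2 := h.hodge i (m + 1) (by omega) q hq hq0 hq1
          rw [pow_succ]
          linarith
        refine ⟨?_, h1⟩
        by_cases hq1 : q = 0
        · rw [hq1]
          simp
        · exact (h1 hq1).le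
    have hppos : 0 ≤ (m : ℚ) * ((-1) ^ j * B p ((L ^ (m - 1)) p)) ∧
        (p ≠ 0 → 0 < (m : ℚ) * ((-1) ^ j * B p ((L ^ (m - 1)) p))) := by
      rcases m with _ | m
      · have hp0' : p = 0 := by simpa using hp0
        refine ⟨by simp, fun h => absurd hp0' h⟩
      · have h1 : p ≠ 0 → 0 < ((m + 1 : ℕ) : ℚ) * ((-1) ^ j * B p ((L ^ (m + 1 - 1)) p)) := by
          intro hp1
          exact mul_pos (by positivity) (h.hodge j m (by omega) p hp hp0 hp1)
        refine ⟨?_, h1⟩
        by_cases hp1 : p = 0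
        · rw [hp1]
          simp
        · exact (h1 hp1).le
    have hm2 : (0 : ℚ) < (m : ℚ) + 2 := by positivity
    have e4 : (-1) ^ j * (((m : ℚ) * c) * B p ((L ^ (m - 1)) p) -
        (((m : ℚ) + 2) * c) * B q ((L ^ (m + 1)) q)) =
        c * ((m : ℚ) * ((-1) ^ j * B p ((L ^ (m - 1)) p))) +
        (c * ((m : ℚ) + 2)) * ((-1) ^ j * (-B q ((L ^ (m + 1)) q))) := by ring
    rw [e4]
    rcases hpq with hp1 | hq1
    · exact add_pos_of_pos_of_nonneg (mul_pos hc (hppos.2 hp1))
        (mul_nonneg (mul_pos hc hm2).le hqpos.1)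
    · exact add_pos_of_nonneg_of_pos (mul_nonneg hc.le hppos.1)
        (mul_pos (mul_pos hc hm2) (hqpos.2 hq1))

end prod

end Pool.Agent.X268.TR
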