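import Pool.Agent.X268.SR.Stm

/-!
# Abelian varieties with semistable reduction: coefficients of cycle classes
-/

set_option autoImplicit false

namespace Pool.Agent.X268.TR

universe u v

open Finset

/-- The abelian variety `X` of dimension `n` has, over a local field, semistable reduction with toric rank
`t` and abelian part `B` of dimension `b`. The ring of algebraic cycles with rational coefficients on `X`
(on `B`) modulo `ℓ`-adic homological equivalence is `A` (is `R`), the classes of codimension `i` are
`gr i` (are `grB i`), the degree of zero-cycles is `deg` (is `degB`), the polarization is `D` (is `DB`).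

A Frobenius element splits the weight filtration: `H¹(X) = U₀ ⊕ H¹(B) ⊕ U₂`, where `U₀` (weight `0`) and
`U₂` (weight `2`) have rational structures (the character lattices of the tori); the monodromy operator
`N` maps the rational structure of `U₂` isomorphically onto the one of `U₀`. Let `y i` be a rational basis
of `U₂` that is orthogonal for the form given by the polarization, and `x i = N (y i)`. The cohomology of
`X` is the tensor product of the cohomology of `B` and the exterior algebra on the `x i` and `y i`. It has
the basis (over the cohomology of `B`) of the monomials `m X Y P`, for pairwise disjoint `X, Y, P`: the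
product, in the order of the indices, of the `x i` with `i ∈ X`, the `y i` with `i ∈ Y`, and the
`x i y i` with `i ∈ P`. Then `coef X Y P a` is the coefficient of the class of the cycle `a` at
`m X Y P`. It is the class of an algebraic cycle with rational coefficients on `B` (specialization of cycles to
the model of Mumford and Künnemann, the strata of whose special fibre are toric bundles over `B`).

No signs occur: the `x i y i` are even, `N` replaces a factor `y i` of a monomial by `x i` (and kills
`x i` and `x i y i`), and for `|X| = |Y| = s` the product of `m X Y P` and `m Y X P'`, where `P'` is the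
complement of `X ∪ Y ∪ P`, is `(-1)^s (-1)^s` times the product of all the `x i y i`; the class of the
latter times the class of a point of `B` has the degree `q > 0`. -/
structure IsSemistable {A : Type u} [CommRing A] [Algebra ℚ A] {R : Type v} [CommRing R] [Algebra ℚ R]
    (n : ℕ) (gr : ℕ → Submodule ℚ A) (deg : A →ₗ[ℚ] ℚ) (D : A)
    (b : ℕ) (grB : ℕ → Submodule ℚ R) (degB : R →ₗ[ℚ] ℚ) (DB : R)
    (t : ℕ) (c : Fin t → ℚ) (q : ℚ)
    (coef : Finset (Fin t) → Finset (Fin t) → Finset (Fin t) → A →ₗ[ℚ] R) : Prop where
  dim : n = b + t
  pos : (∀ i, 0 < c i) ∧ 0 < q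
  /-- the codimension of the coefficients -/
  codim : ∀ r, ∀ a ∈ gr r, ∀ X Y P : Finset (Fin t), (∀ s, s + X.card + P.card = r →
    coef X Y P a ∈ grB s) ∧ (r < X.card + P.card → coef X Y P a = 0)
  /-- the classes of cycles are fixed by the Frobenius element -/
  weight : ∀ r, ∀ a ∈ gr r, ∀ X Y P : Finset (Fin t), X.card ≠ Y.card → coef X Y P a = 0
  /-- the classes of cycles are killed by `N` -/
  inertia : ∀ r, ∀ a ∈ gr r, ∀ X Y P : Finset (Fin t), Disjoint X Y → Disjoint (X ∪ Y) P →
    ∑ i ∈ X, coef (X.erase i) (insert i Y) P a = 0
  /-- the monomials are a basis -/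
  injective : ∀ r, ∀ a ∈ gr r, (∀ X Y P : Finset (Fin t), Disjoint X Y → Disjoint (X ∪ Y) P →
    coef X Y P a = 0) → a = 0
  /-- the class of `D` is the sum of the class of `DB` and of the `c i (x i y i)` -/
  divisor : ∀ r, ∀ a ∈ gr r, ∀ X Y P : Finset (Fin t), Disjoint X Y → Disjoint (X ∪ Y) P →
    coef X Y P (D * a) = DB * coef X Y P a + ∑ i ∈ P, c i • coef X Y (P.erase i) a
  /-- the degree of the product of two cycles -/
  degree : ∀ r, ∀ a ∈ gr r, ∀ s, ∀ a' ∈ gr s, r + s = n → deg (a * a') =
    q * ∑ X, ∑ Y ∈ (univ \ X).powerset, ∑ P ∈ (univ \ (X ∪ Y)).powerset,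
      degB (coef X Y P a * coef Y X ((univ \ (X ∪ Y)) \ P) a')

/-- The class `z` of codimension `i` on a variety of dimension `n` is numerically equivalent to zero. -/
def IsNumTrivial {A : Type u} [CommRing A] [Algebra ℚ A] (n : ℕ) (gr : ℕ → Submodule ℚ A)
    (deg : A →ₗ[ℚ] ℚ) (i : ℕ) (z : A) : Prop :=
  ∀ w ∈ gr (n - i), deg (z * w) = 0

end Pool.Agent.X268.TR
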