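import Pool.Agent.X268.DG.Inv

/-!
# Coefficient functions of invariants and the exchange of the two basis vectors
-/

set_option autoImplicit false

namespace Pool.Agent.X268.TR

open Finset Pool.Agent.X268.DG Pool.Agent.H204R3.SP

variable {κ : Type} [Fintype κ] [DecidableEq κ]

/-- A balanced function killed by `up` is a combination of products of determinants. -/
theorem mem_InvF (F : (κ → Fin 2) → ℚ)
    (hbal : ∀ I, F I ≠ 0 → (univ.filter fun k => I k = 1).card =
      (univ.filter fun k => I k = 0).card) (hup : ∀ I, up F I = 0) : F ∈ InvF oth sgn κ := by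
  have hdn : ∀ I, dn F I = 0 := dn_eq_zero F hbal hup
  have hJ0 : ∀ y : Fin 2, JJ oth sgn 0 y = if y = 1 then 1 else 0 := by
    intro y
    fin_cases y <;> simp [JJ, oth, sgn]
  have hJ1 : ∀ y : Fin 2, JJ oth sgn 1 y = if y = 0 then -1 else 0 := by
    intro y
    fin_cases y <;> simp [JJ, oth, sgn]
  have e0 : ∀ I : κ → Fin 2, ∑ k, JJ oth sgn 0 (I k) * F (Function.update I k 0) = 0 := by
    intro I
    rw [← hup I]
    unfold Pool.Agent.X268.DG.up
    refine Finset.sum_congr rfl fun k _ => ?_
    rw [hJ0, ite_mul, one_mul, zero_mul]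
  have e1 : ∀ I : κ → Fin 2, ∑ k, JJ oth sgn 1 (I k) * F (Function.update I k 1) = 0 := by
    intro I
    have h1 := hdn I
    unfold dn at h1
    rw [← neg_eq_zero, ← Finset.sum_neg_distrib] at h1
    rw [← h1]
    refine Finset.sum_congr rfl fun k _ => ?_
    rw [hJ1, ite_mul, neg_one_mul, zero_mul]
    split_ifs <;> simp
  have e2 : ∀ I : κ → Fin 2, ∑ k, (JJ oth sgn 0 (I k) * F (Function.update I k 1) +
      JJ oth sgn 1 (I k) * F (Function.update I k 0)) = 0 := by
    intro I
    have h1 : ∀ k, (JJ oth sgn 0 (I k) * F (Function.update I k 1) +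
      JJ oth sgn 1 (I k) * F (Function.update I k 0)) =
        (if I k = 1 then F I else 0) - (if I k = 0 then F I else 0) := by
      intro k
      rw [hJ0, hJ1]
      by_cases hk : I k = 1
      · have hk0 : ¬ I k = 0 := by rw [hk]; exact one_ne_zero
        rw [if_pos hk, if_neg hk0, if_pos hk, if_neg hk0, one_mul, zero_mul, ← hk,
          Function.update_eq_self]
        ring
      · have hk0 : I k = 0 := by
          rcases Fin.exists_fin_two.1 ⟨I k, rfl⟩ with h5 | h5
          · exact h5
          · exact absurd h5 hk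
        rw [if_neg hk, if_pos hk0, if_neg hk, if_pos hk0, zero_mul, ← hk0,
          Function.update_eq_self]
        ring
    rw [Finset.sum_congr rfl fun k _ => h1 k, Finset.sum_sub_distrib, ← Finset.sum_filter,
      ← Finset.sum_filter, Finset.sum_const, Finset.sum_const]
    by_cases hI : F I = 0
    · rw [hI, smul_zero, smul_zero, sub_zero]
    · rw [hbal I hI, sub_self]
  intro b c I
  rcases Fin.exists_fin_two.1 ⟨b, rfl⟩ with hb | hb <;>
    rcases Fin.exists_fin_two.1 ⟨c, rfl⟩ with hc | hc <;> rw [hb, hc]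
  · rw [Finset.sum_add_distrib, e0, add_zero]
  · exact e2 I
  · rw [← e2 I]
    exact Finset.sum_congr rfl fun k _ => add_comm _ _
  · rw [Finset.sum_add_distrib, e1, add_zero]

/-- **Exchanging the basis vectors multiplies an invariant of degree `2 m` by `(-1)^m`.** -/
theorem swap (F : (κ → Fin 2) → ℚ)
    (hbal : ∀ I, F I ≠ 0 → (univ.filter fun k => I k = 1).card =
      (univ.filter fun k => I k = 0).card) (hup : ∀ I, up F I = 0) {m : ℕ}
    (hm : Fintype.card κ = 2 * m) (I : κ → Fin 2) :
    F (fun k => oth (I k)) = (-1) ^ m * F I := by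
  have h1 := mem_InvF F hbal hup
  have h2 := fft (inv := oth) (jj := sgn) (by intro x; fin_cases x <;> rfl)
    (by intro x; fin_cases x <;> simp [oth, sgn]) (by intro x; fin_cases x <;> simp [sgn]) m κ hm h1
  unfold MatF at h2
  clear h1 hbal hup
  induction h2 using Submodule.span_induction with
  | mem G hG =>
    obtain ⟨σ, rfl⟩ := hG
    have h3 : ∀ x y : Fin 2, JJ oth sgn (oth x) (oth y) = (-1 : ℚ) * JJ oth sgn x y := by
      intro x y
      fin_cases x <;> fin_cases y <;> simp [JJ, oth, sgn]
    change ∏ s, JJ oth sgn (oth (I (σ (s, 0)))) (oth (I (σ (s, 1)))) =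
      (-1) ^ m * ∏ s, JJ oth sgn (I (σ (s, 0))) (I (σ (s, 1)))
    rw [Finset.prod_congr rfl fun s _ => h3 _ _, Finset.prod_mul_distrib, Finset.prod_const,
      Finset.card_univ, Fintype.card_fin]
  | zero => simp
  | add G G' _ _ hG hG' =>
    rw [Pi.add_apply, Pi.add_apply, hG, hG', mul_add]
  | smul a G _ hG =>
    rw [Pi.smul_apply, Pi.smul_apply, hG, smul_eq_mul, smul_eq_mul]
    ring

end Pool.Agent.X268.TR
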