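import Pool.Agent.X268.TR.Pow
import Pool.Agent.X268.TR.Swap
import Pool.Agent.X268.TR.Stm

/-!
# The Hodge index theorem for abelian varieties with semistable reduction
-/

set_option autoImplicit false

namespace Pool.Agent.X268.TR

universe u v

open Finset Pool.Agent.X268.SR Pool.Agent.X268.DG

section base

variable {R : Type v} [CommRing R] [Algebra ℚ R] {b : ℕ} {grB : ℕ → Submodule ℚ R}
  {degB : R →ₗ[ℚ] ℚ} {DB : R}

/-- The form of a ring with a degree map. -/
noncomputable def formB (degB : R →ₗ[ℚ] ℚ) : R →ₗ[ℚ] R →ₗ[ℚ] ℚ := (LinearMap.mul ℚ R).compr₂ degB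

theorem formB_apply (x y : R) : formB degB x y = degB (x * y) := rfl

theorem mulLeft_pow (k : ℕ) (x : R) : ((LinearMap.mulLeft ℚ DB : Module.End ℚ R) ^ k) x =
    DB ^ k * x := by
  induction k with
  | zero => simp
  | succ k ih =>
    rw [pow_succ', Module.End.mul_apply, ih, LinearMap.mulLeft_apply, pow_succ', mul_assoc]

theorem isLM_of_isLHR (h : IsLHR b grB degB DB) :
    IsLM b grB (LinearMap.mulLeft ℚ DB) (formB degB) where
  map := by
    intro j x hx
    rw [LinearMap.mulLeft_apply, add_comm]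
    exact h.ring.mul_mem h.ring.divisor hx
  bound := fun j hj x hx => h.ring.bound hj hx
  symm := fun x y => by rw [formB_apply, formB_apply, mul_comm]
  adj := fun x y => by
    rw [formB_apply, formB_apply, LinearMap.mulLeft_apply, LinearMap.mulLeft_apply]
    congr 1
    ring
  lef := by
    intro j m hj z hz
    have h1 := h.lef j (by omega) z (by rwa [show b - j = j + m by omega])
    rw [show b - 2 * j = m by omega] at h1
    obtain ⟨z', hz', he⟩ := h1
    exact ⟨z', hz', by rw [mulLeft_pow, he]⟩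
  hodge := by
    intro j m hj x hx h0 hne
    rw [mulLeft_pow] at h0
    have h1 := h.hodge j (by omega) x hx (by rwa [show b - 2 * j = m by omega]) hne
    rw [show b - 2 * j = m by omega] at h1
    rw [mulLeft_pow, formB_apply]
    have h2 : x * (DB ^ m * x) = x * x * DB ^ m := by ring
    rwa [h2]

end base

variable {A : Type u} [CommRing A] [Algebra ℚ A] {R : Type v} [CommRing R] [Algebra ℚ R]
  {n : ℕ} {gr : ℕ → Submodule ℚ A} {deg : A →ₗ[ℚ] ℚ} {D : A}
  {b : ℕ} {grB : ℕ → Submodule ℚ R} {degB : R →ₗ[ℚ] ℚ} {DB : R}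
  {t : ℕ} {c : Fin t → ℚ} {q : ℚ}
  {coef : Finset (Fin t) → Finset (Fin t) → Finset (Fin t) → A →ₗ[ℚ] R}

/-- The subset of `S` where the function has the value `e`. -/
def lev (S : Finset (Fin t)) (I : S → Fin 2) (e : Fin 2) : Finset (Fin t) :=
  (univ.filter fun k => I k = e).map (Function.Embedding.subtype _)

theorem mem_lev (S : Finset (Fin t)) (I : S → Fin 2) (e : Fin 2) (i : Fin t) :
    i ∈ lev S I e ↔ ∃ h : i ∈ S, I ⟨i, h⟩ = e := by
  unfold lev
  simp

theorem card_lev (S : Finset (Fin t)) (I : S → Fin 2) (e : Fin 2) :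
    (lev S I e).card = (univ.filter fun k => I k = e).card := by
  unfold lev
  rw [Finset.card_map]

theorem fin2_ne {x : Fin 2} (h : x ≠ 1) : x = 0 := by
  rcases Fin.exists_fin_two.1 ⟨x, rfl⟩ with h5 | h5
  · exact h5
  · exact absurd h5 h

theorem lev_update_one (S : Finset (Fin t)) (I : S → Fin 2) (k : S) :
    lev S (Function.update I k 0) 1 = (lev S I 1).erase k := by
  ext i
  rw [Finset.mem_erase, mem_lev, mem_lev]
  constructor
  · rintro ⟨hi, h⟩
    by_cases hik : (⟨i, hi⟩ : S) = k
    · rw [hik, Function.update_self] at h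
      exact absurd h zero_ne_one
    · rw [Function.update_of_ne hik] at h
      refine ⟨fun h' => hik (Subtype.ext h'), hi, h⟩
  · rintro ⟨hne, hi, h⟩
    refine ⟨hi, ?_⟩
    rw [Function.update_of_ne]
    · exact h
    · intro h'
      exact hne (congrArg Subtype.val h')

theorem lev_update_zero (S : Finset (Fin t)) (I : S → Fin 2) (k : S) :
    lev S (Function.update I k 0) 0 = insert (k : Fin t) (lev S I 0) := by
  ext i
  rw [Finset.mem_insert, mem_lev, mem_lev]
  constructor
  · rintro ⟨hi, h⟩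
    by_cases hik : (⟨i, hi⟩ : S) = k
    · exact Or.inl (congrArg Subtype.val hik)
    · rw [Function.update_of_ne hik] at h
      exact Or.inr ⟨hi, h⟩
  · rintro (rfl | ⟨hi, h⟩)
    · exact ⟨k.2, by rw [Subtype.coe_eta, Function.update_self]⟩
    · refine ⟨hi, ?_⟩
      by_cases hik : (⟨i, hi⟩ : S) = k
      · rw [hik, Function.update_self]
      · rw [Function.update_of_ne hik]
        exact h

theorem lev_disjoint (S : Finset (Fin t)) (I : S → Fin 2) : Disjoint (lev S I 1) (lev S I 0) := by
  rw [Finset.disjoint_left]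
  intro i h1 h0
  obtain ⟨hi, h1⟩ := (mem_lev S I 1 i).1 h1
  obtain ⟨_, h0⟩ := (mem_lev S I 0 i).1 h0
  rw [h1] at h0
  exact one_ne_zero h0

theorem lev_union (S : Finset (Fin t)) (I : S → Fin 2) : lev S I 1 ∪ lev S I 0 = S := by
  ext i
  rw [Finset.mem_union, mem_lev, mem_lev]
  constructor
  · rintro (⟨hi, _⟩ | ⟨hi, _⟩) <;> exact hi
  · intro hi
    by_cases h : I ⟨i, hi⟩ = 1
    · exact Or.inl ⟨hi, h⟩
    · exact Or.inr ⟨hi, fin2_ne h⟩

/-- The invariance under the exchange of the two basis vectors. -/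
theorem coef_swap (h : IsSemistable n gr deg D b grB degB DB t c q coef) {r : ℕ} {a : A}
    (ha : a ∈ gr r) {X Y P : Finset (Fin t)} (hXY : Disjoint X Y) (hP : Disjoint (X ∪ Y) P)
    (hcard : X.card = Y.card) : coef Y X P a = (-1 : ℚ) ^ X.card • coef X Y P a := by
  classical
  rw [← sub_eq_zero, ← Module.forall_dual_apply_eq_zero_iff ℚ]
  intro ψ
  let F : ((X ∪ Y : Finset (Fin t)) → Fin 2) → ℚ := fun I =>
    ψ (coef (lev (X ∪ Y) I 1) (lev (X ∪ Y) I 0) P a)
  have hbal : ∀ I, F I ≠ 0 → (univ.filter fun k => I k = 1).card =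
      (univ.filter fun k => I k = 0).card := by
    intro I hI
    by_contra hc
    rw [← card_lev, ← card_lev] at hc
    refine hI ?_
    change ψ (coef (lev (X ∪ Y) I 1) (lev (X ∪ Y) I 0) P a) = 0
    rw [h.weight r a ha _ _ _ hc, map_zero]
  have hup : ∀ I, up F I = 0 := by
    intro I
    unfold up
    rw [← Finset.sum_filter]
    have h1 := congrArg ψ (h.inertia r a ha (lev (X ∪ Y) I 1) (lev (X ∪ Y) I 0) P
      (lev_disjoint _ _) (by rw [lev_union]; exact hP))
    rw [map_zero, map_sum] at h1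
    rw [← h1]
    conv_rhs => rw [lev, Finset.sum_map]
    refine Finset.sum_congr rfl fun k hk => ?_
    change ψ (coef (lev (X ∪ Y) (Function.update I k 0) 1)
      (lev (X ∪ Y) (Function.update I k 0) 0) P a) = _
    rw [lev_update_one, lev_update_zero]
    rfl
  have hm : Fintype.card (X ∪ Y : Finset (Fin t)) = 2 * X.card := by
    rw [Fintype.card_coe, Finset.card_union_of_disjoint hXY, ← hcard, two_mul]
  let I₀ : (X ∪ Y : Finset (Fin t)) → Fin 2 := fun k => if (k : Fin t) ∈ X then 1 else 0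
  have h2 := swap F hbal hup hm I₀
  have hX : lev (X ∪ Y) I₀ 1 = X := by
    ext i
    rw [mem_lev]
    constructor
    · rintro ⟨hi, h3⟩
      by_contra hcon
      change (if i ∈ X then (1 : Fin 2) else 0) = 1 at h3
      rw [if_neg hcon] at h3
      exact zero_ne_one h3
    · intro hi
      exact ⟨Finset.mem_union_left _ hi, if_pos hi⟩
  have hY : lev (X ∪ Y) I₀ 0 = Y := by
    ext i
    rw [mem_lev]
    constructor
    · rintro ⟨hi, h3⟩
      by_contra hcon
      have hiX : i ∈ X := (Finset.mem_union.1 hi).resolve_right hcon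
      change (if i ∈ X then (1 : Fin 2) else 0) = 0 at h3
      rw [if_pos hiX] at h3
      exact one_ne_zero h3
    · intro hi
      refine ⟨Finset.mem_union_right _ hi, if_neg fun hiX => ?_⟩
      exact (Finset.disjoint_left.1 hXY hiX) hi
  have hoth : ∀ x : Fin 2, (oth x = 1 ↔ x = 0) ∧ (oth x = 0 ↔ x = 1) := by
    intro x
    fin_cases x <;> simp [oth]
  have hX' : lev (X ∪ Y) (fun k => oth (I₀ k)) 1 = Y := by
    refine Eq.trans ?_ hY
    ext i
    rw [mem_lev, mem_lev]
    exact exists_congr fun hi => (hoth _).1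
  have hY' : lev (X ∪ Y) (fun k => oth (I₀ k)) 0 = X := by
    refine Eq.trans ?_ hX
    ext i
    rw [mem_lev, mem_lev]
    exact exists_congr fun hi => (hoth _).2
  change ψ (coef (lev (X ∪ Y) (fun k => oth (I₀ k)) 1) (lev (X ∪ Y) (fun k => oth (I₀ k)) 0) P a) =
    (-1) ^ X.card * ψ (coef (lev (X ∪ Y) I₀ 1) (lev (X ∪ Y) I₀ 0) P a) at h2
  rw [hX, hY, hX', hY'] at h2
  rw [map_sub, map_smul, h2, smul_eq_mul, sub_self]

/-- **The Hodge index theorem for abelian varieties with semistable reduction.** -/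
theorem hodge_of_semistable (h : IsSemistable n gr deg D b grB degB DB t c q coef)
    (hmul : ∀ (k : ℕ) {j : ℕ} {x : A}, x ∈ gr j → D ^ k * x ∈ gr (j + k))
    (hB : IsLHR b grB degB DB) {r m : ℕ} (hrm : 2 * r + m = n) {a : A} (ha : a ∈ gr r)
    (h0 : D ^ (m + 1) * a = 0) (hne : a ≠ 0) : 0 < (-1) ^ r * deg (a * (D ^ m * a)) := by
  classical
  have hdeg := h.degree r a ha (r + m) (D ^ m * a) (hmul m ha) (by omega)
  -- the contribution of disjoint sets `X`, `Y`
  have hterm : ∀ X Y : Finset (Fin t), Disjoint X Y →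
      0 ≤ (-1) ^ r * ∑ P ∈ (univ \ (X ∪ Y)).powerset,
        degB (coef X Y P a * coef Y X ((univ \ (X ∪ Y)) \ P) (D ^ m * a)) ∧
      ((-1) ^ r * ∑ P ∈ (univ \ (X ∪ Y)).powerset,
        degB (coef X Y P a * coef Y X ((univ \ (X ∪ Y)) \ P) (D ^ m * a)) = 0 →
        ∀ P, Disjoint (X ∪ Y) P → coef X Y P a = 0) := by
    intro X Y hXY
    by_cases hc : X.card = Y.card ∧ X.card ≤ r
    · obtain ⟨hc, hcr⟩ := hc
      have hsub : ∀ K, K ⊆ univ \ (X ∪ Y) ↔ Disjoint (X ∪ Y) K := by
        intro K
        rw [Finset.subset_sdiff]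
        exact ⟨fun h => h.2.symm, fun h => ⟨Finset.subset_univ _, h.symm⟩⟩
      have hT : (univ \ (X ∪ Y)).card + 2 * X.card = t := by
        rw [Finset.card_sdiff_of_subset (Finset.subset_univ _), Finset.card_univ, Fintype.card_fin,
          Finset.card_union_of_disjoint hXY, ← hc]
        have h1 := Finset.card_le_univ (X ∪ Y)
        rw [Fintype.card_fin, Finset.card_union_of_disjoint hXY, ← hc] at h1
        omega
      obtain ⟨g1, g2⟩ := pow_nonneg c h.pos.1 (univ \ (X ∪ Y)) (isLM_of_isLHR hB) (r - X.card) m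
        (by have := h.dim; omega) (fun k P => coef X Y P (D ^ k * a))
        (by
          intro K hK
          have h1 := h.codim r a ha X Y K
          refine ⟨fun s hs => ?_, fun hs => ?_⟩
          · change coef X Y K (D ^ 0 * a) ∈ grB s
            rw [pow_zero, one_mul]
            exact h1.1 s (by omega)
          · change coef X Y K (D ^ 0 * a) = 0
            rw [pow_zero, one_mul]
            exact h1.2 (by omega))
        (by
          intro k K hK
          change coef X Y K (D ^ (k + 1) * a) = DB * coef X Y K (D ^ k * a) +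
            ∑ i ∈ K, c i • coef X Y (K.erase i) (D ^ k * a)
          rw [pow_succ', mul_assoc]
          exact h.divisor (r + k) _ (hmul k ha) X Y K hXY ((hsub K).1 hK))
        (by
          intro K _
          change coef X Y K (D ^ (m + 1) * a) = 0
          rw [h0, map_zero])
      have hsum : (-1) ^ r * ∑ P ∈ (univ \ (X ∪ Y)).powerset,
          degB (coef X Y P a * coef Y X ((univ \ (X ∪ Y)) \ P) (D ^ m * a)) =
          (-1) ^ (r - X.card) * ∑ K ∈ (univ \ (X ∪ Y)).powerset,
            formB degB (coef X Y K (D ^ 0 * a)) (coef X Y ((univ \ (X ∪ Y)) \ K) (D ^ m * a)) := by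
        have hpow : ((-1 : ℚ)) ^ r = (-1) ^ (r - X.card) * (-1) ^ X.card := by
          rw [← pow_add]
          congr 1
          omega
        have hsq : ((-1 : ℚ)) ^ X.card * (-1) ^ X.card = 1 := by
          rw [← mul_pow]
          norm_num
        rw [hpow, mul_assoc]
        congr 1
        rw [Finset.mul_sum]
        refine Finset.sum_congr rfl fun P hP => ?_
        have hd : Disjoint (X ∪ Y) ((univ \ (X ∪ Y)) \ P) :=
          (hsub _).1 Finset.sdiff_subset
        rw [coef_swap h (hmul m ha) hXY hd hc, pow_zero, one_mul, mul_smul_comm, map_smul,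
          smul_eq_mul, ← mul_assoc, hsq, one_mul]
        rfl
      rw [hsum]
      refine ⟨g1, fun h3 P hP => ?_⟩
      have h4 := g2 h3 P ((hsub P).2 hP)
      change coef X Y P (D ^ 0 * a) = 0 at h4
      rwa [pow_zero, one_mul] at h4
    · have hz : ∀ P, coef X Y P a = 0 := by
        intro P
        by_cases hc1 : X.card = Y.card
        · refine (h.codim r a ha X Y P).2 ?_
          have : ¬ X.card ≤ r := fun h' => hc ⟨hc1, h'⟩
          omega
        · exact h.weight r a ha X Y P hc1
      have h1 : ∑ P ∈ (univ \ (X ∪ Y)).powerset,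
          degB (coef X Y P a * coef Y X ((univ \ (X ∪ Y)) \ P) (D ^ m * a)) = 0 :=
        Finset.sum_eq_zero fun P _ => by rw [hz, zero_mul, map_zero]
      rw [h1, mul_zero]
      exact ⟨le_rfl, fun _ P _ => hz P⟩
  have hdisj : ∀ X, ∀ Y ∈ (univ \ X : Finset (Fin t)).powerset, Disjoint X Y := by
    intro X Y hY
    rw [Finset.mem_powerset, Finset.subset_sdiff] at hY
    exact hY.2.symm
  rw [hdeg, mul_left_comm, Finset.mul_sum]
  refine mul_pos h.pos.2 ?_
  have hX : ∀ X : Finset (Fin t), 0 ≤ (-1) ^ r * ∑ Y ∈ (univ \ X).powerset,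
      ∑ P ∈ (univ \ (X ∪ Y)).powerset,
        degB (coef X Y P a * coef Y X ((univ \ (X ∪ Y)) \ P) (D ^ m * a)) := by
    intro X
    rw [Finset.mul_sum]
    exact Finset.sum_nonneg fun Y hY => (hterm X Y (hdisj X Y hY)).1
  refine lt_of_le_of_ne (Finset.sum_nonneg fun X _ => hX X) fun hzero => hne ?_
  refine h.injective r a ha fun X Y P hXY hP => ?_
  have h1 := (Finset.sum_eq_zero_iff_of_nonneg fun X _ => hX X).1 hzero.symm X (Finset.mem_univ X)
  rw [Finset.mul_sum] at h1
  have h2 := (Finset.sum_eq_zero_iff_of_nonneg fun Y hY => (hterm X Y (hdisj X Y hY)).1).1 h1 Y (by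
    rw [Finset.mem_powerset, Finset.subset_sdiff]
    exact ⟨Finset.subset_univ _, hXY.symm⟩)
  exact (hterm X Y hXY).2 h2 P hP

end Pool.Agent.X268.TR
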