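import Pool.Agent.X268.TR.Main
import Pool.Agent.X268.SR.Main

/-!
# Numerical equivalence and the numerical Hodge index theorem
-/

set_option autoImplicit false

namespace Pool.Agent.X268.TR

universe u v

open Finset Pool.Agent.X268.SR Pool.Agent.Y137.HD

variable {A : Type u} [CommRing A] [Algebra ℚ A] {R : Type v} [CommRing R] [Algebra ℚ R]
  {n : ℕ} {gr : ℕ → Submodule ℚ A} {deg : A →ₗ[ℚ] ℚ} {D : A}
  {b : ℕ} {grB : ℕ → Submodule ℚ R} {degB : R →ₗ[ℚ] ℚ} {DB : R}
  {t : ℕ} {c : Fin t → ℚ} {q : ℚ}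
  {coef : Finset (Fin t) → Finset (Fin t) → Finset (Fin t) → A →ₗ[ℚ] R}

theorem hodgeIndex (hX : IsCycleRing n gr deg D) (hB : IsLHR b grB degB DB)
    (h : IsSemistable n gr deg D b grB degB DB t c q coef) : IsHodgeIndex n gr deg D := by
  intro j hj z hz h0 hne
  have h1 := hodge_of_semistable h (fun k {j x} hx => by
    rw [add_comm]
    exact hX.pow_mul_mem k hx) hB (r := j) (m := n - 2 * j) (by omega) hz h0 hne
  have h2 : z * z * D ^ (n - 2 * j) = z * (D ^ (n - 2 * j) * z) := by ring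
  rwa [h2]

theorem homEqNum (hX : IsCycleRing n gr deg D) (hB : IsLHR b grB degB DB)
    (h : IsSemistable n gr deg D b grB degB DB t c q coef) {i : ℕ} (hi : i ≤ n)
    (hA : ∀ j, 0 < j → j < i → j + i ≤ n → ∀ z ∈ gr (n - j), ∃ z' ∈ gr j,
      D ^ (n - 2 * j) * z' = z) {z : A} (hz : z ∈ gr i) (h0 : IsNumTrivial n gr deg i z) :
    z = 0 := by
  refine numEqHom_codim hX (fun j m hjm z hz hp h0 => ?_) hi hA z hz h0
  by_contra hne
  have h4 := hodgeIndex hX hB h j (by omega) z hz (by rwa [show n - 2 * j = m by omega]) hne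
  rw [show n - 2 * j = m by omega, mul_assoc, h0, map_zero, mul_zero] at h4
  exact lt_irrefl _ h4

theorem numerical (hX : IsCycleRing n gr deg D) (hA : LefschetzA n gr D)
    (hB : IsLHR b grB degB DB) (h : IsSemistable n gr deg D b grB degB DB t c q coef) {j : ℕ}
    (hj : 2 * j ≤ n) {z : A} (hz : z ∈ gr j)
    (hp : IsNumTrivial n gr deg (n - j + 1) (D ^ (n - 2 * j + 1) * z))
    (hne : ¬ IsNumTrivial n gr deg j z) : 0 < (-1) ^ j * deg (z * z * D ^ (n - 2 * j)) := by
  have hA' : ∀ i, ∀ l, 0 < l → l < i → l + i ≤ n → ∀ z ∈ gr (n - l), ∃ z' ∈ gr l,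
      D ^ (n - 2 * l) * z' = z := fun i l _ hl hli z hz => hA l (by omega) z hz
  have hmem : D ^ (n - 2 * j + 1) * z ∈ gr (n - j + 1) := by
    have h1 := hX.pow_mul_mem (n - 2 * j + 1) hz
    rwa [show n - 2 * j + 1 + j = n - j + 1 by omega] at h1
  have h0 : D ^ (n - 2 * j + 1) * z = 0 := by
    rcases Nat.eq_zero_or_pos j with rfl | hpos
    · exact hX.bound (by omega) hmem
    · exact homEqNum hX hB h (by omega) (hA' _) hmem hp
  refine hodgeIndex hX hB h j hj z hz h0 ?_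
  rintro rfl
  refine hne fun w _ => ?_
  rw [zero_mul, map_zero]

end Pool.Agent.X268.TR
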