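import Pool.Agent.X268.TR.Lm

/-!
# Products with several projective lines
-/

set_option autoImplicit false

namespace Pool.Agent.X268.TR

universe u

open Finset

variable {ι : Type} [DecidableEq ι]

/-- **Positivity for products with several projective lines.** -/
theorem pow_nonneg (c : ι → ℚ) (hc : ∀ i, 0 < c i) (T : Finset ι) :
    ∀ {M : Type u} [AddCommGroup M] [Module ℚ M] {n : ℕ} {gr : ℕ → Submodule ℚ M}
      {L : Module.End ℚ M} {B : M →ₗ[ℚ] M →ₗ[ℚ] ℚ} (_ : IsLM n gr L B) (r m : ℕ)
      (_ : 2 * r + m = n + T.card) (f : ℕ → Finset ι → M)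
      (_ : ∀ K ⊆ T, (∀ s, s + K.card = r → f 0 K ∈ gr s) ∧ (r < K.card → f 0 K = 0))
      (_ : ∀ k, ∀ K ⊆ T, f (k + 1) K = L (f k K) + ∑ i ∈ K, c i • f k (K.erase i))
      (_ : ∀ K ⊆ T, f (m + 1) K = 0),
      0 ≤ (-1) ^ r * ∑ K ∈ T.powerset, B (f 0 K) (f m (T \ K)) ∧
      ((-1) ^ r * ∑ K ∈ T.powerset, B (f 0 K) (f m (T \ K)) = 0 → ∀ K ⊆ T, f 0 K = 0) := by
  induction T using Finset.induction_on with
  | empty =>
    intro M _ _ n gr L B h r m hrm f hf hL h0
    have hk : ∀ k, f k ∅ = (L ^ k) (f 0 ∅) := by
      intro k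
      induction k with
      | zero => simp
      | succ k ih =>
        rw [hL k ∅ (Finset.Subset.refl _), Finset.sum_empty, add_zero, ih, pow_succ',
          Module.End.mul_apply]
    have hmem : f 0 ∅ ∈ gr r := (hf ∅ (Finset.Subset.refl _)).1 r (by simp)
    have h1 : ∑ K ∈ (∅ : Finset ι).powerset, B (f 0 K) (f m (∅ \ K)) =
        B (f 0 ∅) ((L ^ m) (f 0 ∅)) := by
      rw [Finset.powerset_empty, Finset.sum_singleton, Finset.empty_sdiff, hk m]
    have h2 : (L ^ (m + 1)) (f 0 ∅) = 0 := by
      rw [← hk]
      exact h0 ∅ (Finset.Subset.refl _)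
    rw [Finset.card_empty, add_zero] at hrm
    rw [h1]
    by_cases hne : f 0 ∅ = 0
    · rw [hne]
      refine ⟨by simp, fun _ K hK => ?_⟩
      rw [Finset.subset_empty.1 hK, hne]
    · have h3 := h.hodge r m hrm _ hmem h2 hne
      exact ⟨h3.le, fun h4 => absurd h4 h3.ne'⟩
  | insert j T hj ih =>
    intro M _ _ n gr L B h r m hrm f hf hL h0
    have hsub : ∀ K ⊆ T, K ⊆ insert j T := fun K hK => hK.trans (Finset.subset_insert _ _)
    have hins : ∀ K ⊆ T, insert j K ⊆ insert j T := fun K hK => Finset.insert_subset_insert _ hK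
    have hjK : ∀ K ⊆ T, j ∉ K := fun K hK h => hj (hK h)
    have hcard : ∀ K ⊆ T, (insert j K).card = K.card + 1 :=
      fun K hK => Finset.card_insert_of_notMem (hjK K hK)
    obtain ⟨g1, g2⟩ := ih (h.prod (hc j)) r m
      (by rw [hrm, Finset.card_insert_of_notMem hj]; omega)
      (fun k K => (f k K, f k (insert j K)))
      (by
        intro K hK
        refine ⟨fun s hs => ?_, fun hs => ?_⟩
        · rcases s with _ | s
          · refine ⟨(hf K (hsub K hK)).1 0 hs, ?_⟩
            exact (hf _ (hins K hK)).2 (by rw [hcard K hK]; omega)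
          · exact ⟨(hf K (hsub K hK)).1 _ hs,
              (hf _ (hins K hK)).1 s (by rw [hcard K hK]; omega)⟩
        · refine Prod.ext ?_ ?_
          · exact (hf K (hsub K hK)).2 hs
          · exact (hf _ (hins K hK)).2 (by rw [hcard K hK]; omega))
      (by
        intro k K hK
        rw [prodL_apply]
        refine Prod.ext ?_ ?_
        · rw [Prod.fst_add, Prod.fst_sum]
          exact hL k K (hsub K hK)
        · rw [Prod.snd_add, Prod.snd_sum]
          change f (k + 1) (insert j K) = (L (f k (insert j K)) + c j • f k K) +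
            ∑ i ∈ K, c i • f k (insert j (K.erase i))
          rw [hL k _ (hins K hK), Finset.sum_insert (hjK K hK), Finset.erase_insert (hjK K hK),
            add_assoc]
          congr 2
          refine Finset.sum_congr rfl fun i hi => ?_
          rw [Finset.erase_insert_of_ne]
          rintro rfl
          exact hjK K hK hi)
      (by
        intro K hK
        exact Prod.ext (h0 K (hsub K hK)) (h0 _ (hins K hK)))
    have hsum : ∑ K ∈ (insert j T).powerset, B (f 0 K) (f m (insert j T \ K)) =
        ∑ K ∈ T.powerset, prodB B (f 0 K, f 0 (insert j K)) (f m (T \ K), f m (insert j (T \ K))) := by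
      rw [Finset.sum_powerset_insert hj, ← Finset.sum_add_distrib]
      refine Finset.sum_congr rfl fun K hK => ?_
      rw [Finset.mem_powerset] at hK
      rw [prodB_apply]
      change _ = B (f 0 K) (f m (insert j (T \ K))) + B (f 0 (insert j K)) (f m (T \ K))
      rw [Finset.insert_sdiff_of_notMem _ (hjK K hK), Finset.insert_sdiff_insert,
        Finset.sdiff_insert_of_notMem hj]
    rw [hsum]
    refine ⟨g1, fun h4 K hK => ?_⟩
    have g3 := g2 h4
    by_cases hjm : j ∈ K
    · have h5 := congrArg Prod.snd (g3 (K.erase j) (by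
        intro x hx
        rcases Finset.mem_insert.1 (hK (Finset.mem_of_mem_erase hx)) with h | h
        · exact absurd h (Finset.ne_of_mem_erase hx)
        · exact h))
      change f 0 (insert j (K.erase j)) = 0 at h5
      rwa [Finset.insert_erase hjm] at h5
    · exact congrArg Prod.fst (g3 K ((Finset.subset_insert_iff_of_notMem hjm).1 hK))

end Pool.Agent.X268.TR
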